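import Pool.Agent.X113.MS5

/-!
# Pair correlation of the zeros in almost all microscopic intervals, with a rate

Assume the Riemann hypothesis.  Fix `0 < μ < 1/2` and an even test function `r` of bandwidth `μ`.  For
every `H ≥ 1 / log T` the sum of `r((γ - γ') log T / 2π)` over all the pairs of ordinates in
`(t, t + H]`, divided by the expected number `H log T / 2π` of ordinates, differs in the mean over the
intervals inside `[T + log T, 2T - log T]` from Montgomery's value
`r(0) + ∫ r(x) (1 - (sin πx / πx)²) dx` by `≪ (H log T)^(-1/3) + (log T)^(-1/3)`.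

So the pair correlation at bandwidth `< 1/2` holds in almost all the intervals of length `H` as soon as
`H log T → ∞`, that is, as soon as the intervals contain on average an unbounded number of zeros.
-/

open Filter Topology Complex MeasureTheory

namespace Pool.Agent.Results.MP_103a5c_nt.MicroscopicIntervals

/-- the nontrivial zeros of zeta with ordinate in `(a, b]` -/
def zeros (a b : ℝ) : Set ℂ :=
  {s : ℂ | riemannZeta s = 0 ∧ 0 < s.re ∧ s.re < 1 ∧ a < s.im ∧ s.im ≤ b}

/-- the multiplicity of a zero -/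
noncomputable def m (s : ℂ) : ℝ := (analyticOrderNatAt riemannZeta s : ℝ)

/-- the sum of `f (γ - γ')` over the ordered pairs of ordinates of zeros in `(a, b]`, counted
with multiplicity (the diagonal pairs are included) -/
noncomputable def pairs (a b : ℝ) (f : ℝ → ℝ) : ℝ :=
  ∑ᶠ s ∈ zeros a b, ∑ᶠ s' ∈ zeros a b, m s * m s' * f (s.im - s'.im)

/-- `r` is a test function of bandwidth `μ`: the cosine transform of a Lipschitz function
that vanishes outside `(-μ, μ)`, with `r(x) = O(x⁻²)` -/
def Test (μ : ℝ) (r : ℝ → ℝ) : Prop :=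
  ∃ ψ : ℝ → ℝ, (∃ K : ℝ, ∀ x y, |ψ x - ψ y| ≤ K * |x - y|) ∧ (∀ x, μ ≤ |x| → ψ x = 0) ∧
    (∀ x, r x = ∫ α in (-μ)..μ, ψ α * Real.cos (2 * Real.pi * α * x)) ∧
    ∃ C : ℝ, ∀ x, |r x| * x ^ 2 ≤ C

/-- the normalised pair sum of the ordinates in `(t, t + H]` at the scale of the mean spacing -/
noncomputable def P (r : ℝ → ℝ) (t H T : ℝ) : ℝ :=
  (H * Real.log T / (2 * Real.pi))⁻¹ *
    pairs t (t + H) (fun d => r (d * Real.log T / (2 * Real.pi)))

/-- the main term -/
noncomputable def M (r : ℝ → ℝ) : ℝ :=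
  r 0 + ∫ x, r x * (1 - (Real.sin (Real.pi * x) / (Real.pi * x)) ^ 2)

lemma pairs_eq {T t H : ℝ} (hT : 1 ≤ T) (h1 : T ≤ t) (h2 : t + H ≤ 2 * T) (ρ : ℝ → ℝ) :
    pairs t (t + H) ρ = Pool.Agent.X113.MS.Pr T H ρ t := by
  classical
  have hset : zeros t (t + H) = ((H370.Zf riemannZeta T (2 * T)).filter
      (fun s => t < s.im ∧ s.im ≤ t + H) : Finset ℂ) := by
    ext s
    rw [Finset.mem_coe, Finset.mem_filter, H370.mem_Zf H370.good_zeta hT]
    constructor
    · rintro ⟨a1, a2, a3, a4, a5⟩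
      exact ⟨⟨a2, a3, by linarith, by linarith, a1⟩, a4, a5⟩
    · rintro ⟨⟨a2, a3, -, -, a1⟩, a4, a5⟩
      exact ⟨a1, a2, a3, a4, a5⟩
  unfold pairs Pool.Agent.X113.MS.Pr
  rw [hset, finsum_mem_coe_finset, Finset.sum_filter]
  refine Finset.sum_congr rfl fun s _ => ?_
  by_cases hs : t < s.im ∧ s.im ≤ t + H
  · rw [if_pos hs, finsum_mem_coe_finset, Finset.sum_filter]
    refine Finset.sum_congr rfl fun s' _ => ?_
    unfold Pool.Agent.X113.MS.io
    rw [if_pos hs]
    by_cases hs' : t < s'.im ∧ s'.im ≤ t + H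
    · rw [if_pos hs', if_pos hs', mul_one, mul_one]
      rfl
    · rw [if_neg hs', if_neg hs', mul_zero, mul_zero]
  · rw [if_neg hs]
    symm
    refine Finset.sum_eq_zero fun s' _ => ?_
    unfold Pool.Agent.X113.MS.io
    rw [if_neg hs, zero_mul, mul_zero]

/-- **Montgomery's theorem in microscopic intervals.**  Assume RH.  For every test function `r` of
bandwidth `μ < 1/2` there is `C` such that for all large `T` and all `H ≥ 1 / log T` the mean over `t`
of `|P r t H T - M r|` is at most `C ((H log T)^(-1/3) + (log T)^(-1/3))`, the intervals `(t, t + H]`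
running over those inside `[T + log T, 2T - log T]`. -/
theorem result (hRH : RiemannHypothesis) :
    ∀ μ : ℝ, 0 < μ → μ < 1 / 2 → ∀ r : ℝ → ℝ, Test μ r →
      ∃ C T₀ : ℝ, ∀ T : ℝ, T₀ ≤ T → ∀ H : ℝ, 1 / Real.log T ≤ H →
        ∫⁻ t in Set.Icc (T + Real.log T) (2 * T - H - Real.log T),
          ENNReal.ofReal |P r t H T - M r| ≤
        ENNReal.ofReal (C * T * ((H * Real.log T) ^ (-(1 / 3) : ℝ) +
          Real.log T ^ (-(1 / 3) : ℝ))) := by
  rintro μ hμ hμ2 r ⟨ψ, ⟨K, hK⟩, hz, hr, C, hC⟩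
  have hrr : r = H370.A2.RR ψ μ := funext hr
  have hRHs : SP.RHs := by
    intro s h0 h1 hzz
    refine hRH s hzz ?_ ?_
    · rintro ⟨n, hn⟩
      rw [hn] at h0
      simp at h0
      have : (0 : ℝ) ≤ n := n.cast_nonneg
      linarith
    · rintro rfl
      simp at h1
  have hK0 : 0 ≤ K := by
    have h1 := hK 1 0
    have h2 := abs_nonneg (ψ 1 - ψ 0)
    simp at h1
    linarith
  have hψc : Continuous ψ := by
    have : LipschitzWith K.toNNReal ψ := by
      refine LipschitzWith.of_dist_le_mul fun x y => ?_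
      rw [Real.dist_eq, Real.dist_eq, Real.coe_toNNReal _ hK0]
      exact hK x y
    exact this.continuous
  have hB : ∀ x, |ψ x| ≤ K := by
    intro x
    rcases le_or_gt μ |x| with h | h
    · rw [hz x h, abs_zero]; exact hK0
    · have h1 := hK x μ
      rw [hz μ (le_abs_self μ), sub_zero] at h1
      have h2 : |x - μ| ≤ 1 := by
        rw [abs_lt] at h
        rw [abs_le]
        constructor <;> linarith [h.1, h.2]
      nlinarith
  have hCr : ∀ x : ℝ, |∫ α in (-μ)..μ, ψ α * Real.cos (2 * Real.pi * α * x)| * x ^ 2 ≤ C := by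
    intro x
    rw [← hr x]
    exact hC x
  have hM : M r = ψ 0 + ∫ α in (-μ)..μ, |α| * ψ α := by
    subst hrr
    exact H370.A2.main_term hψc hz (by linarith) hC
  obtain ⟨C', T0, hC', hT0, h⟩ := Pool.Agent.X113.MS.micro hRHs μ hμ hμ2 ψ K C hK hB hCr
  refine ⟨C', T0, fun T hT H hH => ?_⟩
  have hT10 : 10 ≤ T := hT0.trans hT
  have hL0 : 0 < Real.log T := Real.log_pos (by linarith)
  refine le_trans (le_of_eq ?_) (h T hT H hH)
  refine setLIntegral_congr_fun measurableSet_Icc fun t ht => ?_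
  have e1 : P r t H T = (H * Real.log T / (2 * Real.pi))⁻¹ *
      Pool.Agent.X113.MS.Pr T H (fun d => ∫ α in (-μ)..μ, ψ α *
        Real.cos (2 * Real.pi * α * (d * Real.log T / (2 * Real.pi)))) t := by
    unfold P
    rw [pairs_eq (T := T) (by linarith) (by linarith [ht.1]) (by linarith [ht.2])]
    congr 2
    funext d
    exact hr _
  show ENNReal.ofReal |P r t H T - M r| = _
  rw [e1, hM]

end Pool.Agent.Results.MP_103a5c_nt.MicroscopicIntervals
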