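import Pool.Agent.X113.ST5

/-!
# Stability in Montgomery's conjecture: finite information on the form factor

No hypothesis is assumed.  Let `R ≥ 1` and suppose that the mean of the form factor satisfies the
upper bound `∫_a^b F(α, T) dα ≤ ∫_a^b min(α, 1) dα + o(1)` for all `0 < a < b ≤ R`.  Then for all
`α < β` the normalised pair count satisfies
`|N(T; α, β) / ((T / 2π) log T) - P(α, β)| ≤ 360 (1 + |α| + |β|) / R + o(1)`.

Nothing is assumed about the form factor beyond `R`, and no lower bound is assumed.  The same holds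
along any sequence of values of `T`.
-/

open MeasureTheory Filter
open Complex (I)

namespace Pool.Agent.Results.MP_103a5c_nt.StabilityOfPairCounts

/-- the nontrivial zeros of `ζ` with ordinate in `(0, T]` -/
def zeros (T : ℝ) : Set ℂ :=
  {s : ℂ | 0 < s.re ∧ s.re < 1 ∧ 0 < s.im ∧ s.im ≤ T ∧ riemannZeta s = 0}

/-- the multiplicity of `s` as a zero of `ζ` -/
noncomputable def mult (s : ℂ) : ℕ := analyticOrderNatAt riemannZeta s

/-- `N(T; α, β)`: the number of ordered pairs of zeros with ordinates in `(0, T]`, counted with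
multiplicity, with `2πα / log T ≤ γ - γ' ≤ 2πβ / log T` -/
noncomputable def N (T α β : ℝ) : ℕ :=
  ∑ᶠ s ∈ zeros T, ∑ᶠ s' ∈ {s' : ℂ | s' ∈ zeros T ∧
    2 * Real.pi * α / Real.log T ≤ s.im - s'.im ∧ s.im - s'.im ≤ 2 * Real.pi * β / Real.log T},
      mult s * mult s'

/-- the constant of the conjecture -/
noncomputable def P (α β : ℝ) : ℝ :=
  (∫ u in α..β, (1 - (Real.sin (Real.pi * u) / (Real.pi * u)) ^ 2)) +
    if α ≤ 0 ∧ 0 ≤ β then 1 else 0

/-- `(T / 2π) log T` -/
noncomputable def X (T : ℝ) : ℝ := T / (2 * Real.pi) * Real.log T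

/-- Montgomery's form factor `F(α, T)` -/
noncomputable def F (T α : ℝ) : ℂ :=
  (X T : ℂ)⁻¹ * ∑ᶠ s ∈ zeros T, ∑ᶠ s' ∈ zeros T, (mult s : ℂ) * (mult s' : ℂ) *
    ((T : ℂ) ^ (I * α * (s.im - s'.im)) * (4 / (4 + (s.im - s'.im) ^ 2)))

/-- the upper bound for the means of the form factor in `(0, R]` -/
def MeanUpper (l : Filter ℝ) (R : ℝ) : Prop := ∀ a b : ℝ, 0 < a → a < b → b ≤ R →
  ∀ ε : ℝ, 0 < ε → ∀ᶠ T in l, ∫ α in a..b, (F T α).re ≤ (∫ α in a..b, min α 1) + ε

/-- **If the means of the form factor are at most the conjectured ones in `(0, R]`, then all the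
pair counts are within `O(1 / R)` of the conjectured ones.** -/
theorem result (l : Filter ℝ) (hl : l ≤ atTop) (R : ℝ) (hR : 1 ≤ R) (h : MeanUpper l R)
    (α β : ℝ) (hαβ : α < β) (ε : ℝ) (hε : 0 < ε) :
    ∀ᶠ T in l, |N T α β / X T - P α β| ≤ 360 * (1 + |α| + |β|) / R + ε :=
  Pool.Agent.X113.ST.main hl hR h hαβ hε

end Pool.Agent.Results.MP_103a5c_nt.StabilityOfPairCounts
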