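import Pool.Agent.Y749.Rig.FFf

/-!
# Upper bounds for the means of the form factor decide Montgomery's conjecture

Assume RH.  Montgomery's conjecture (for all `α < β`) holds if and only if for all `0 < a < b` the
mean of the form factor satisfies the upper bound
`∫_a^b F(α, T) dα ≤ ∫_a^b min(α, 1) dα + o(1)`.

Quantitatively, if the upper bound is known for all `0 < a < b ≤ R`, with some `R ≥ 1`, then the lower
bound `∫_a^b F(α, T) dα ≥ ∫_a^b min(α, 1) dα - 1 / (6 (R - b)) - o(1)` holds for all `0 < a < b < R`.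

All this also holds along any sequence of values of `T`.  The lower bounds come from the
nonnegativity of the pair counts.
-/

open MeasureTheory Filter
open Complex (I)

namespace Pool.Agent.Results.MP_103a5c_nt.UpperMeansDecide

/-- the nontrivial zeros of `ζ` with ordinate in `(0, T]` -/
def zeros (T : ℝ) : Set ℂ :=
  {s : ℂ | 0 < s.re ∧ s.re < 1 ∧ 0 < s.im ∧ s.im ≤ T ∧ riemannZeta s = 0}

/-- the multiplicity of `s` as a zero of `ζ` -/
noncomputable def mult (s : ℂ) : ℕ := analyticOrderNatAt riemannZeta s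

/-- `N(T; α, β)`: the number of ordered pairs of zeros with ordinates in `(0, T]`, counted with
multiplicity, with `2πα / log T ≤ γ - γ' ≤ 2πβ / log T` -/
noncomputable def N (T α β : ℝ) : ℕ :=
  ∑ᶠ s ∈ zeros T, ∑ᶠ s' ∈ {s' : ℂ | s' ∈ zeros T ∧
    2 * Real.pi * α / Real.log T ≤ s.im - s'.im ∧ s.im - s'.im ≤ 2 * Real.pi * β / Real.log T},
      mult s * mult s'

/-- the constant of the conjecture -/
noncomputable def P (α β : ℝ) : ℝ :=
  (∫ u in α..β, (1 - (Real.sin (Real.pi * u) / (Real.pi * u)) ^ 2)) +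
    if α ≤ 0 ∧ 0 ≤ β then 1 else 0

/-- `(T / 2π) log T` -/
noncomputable def X (T : ℝ) : ℝ := T / (2 * Real.pi) * Real.log T

/-- Montgomery's conjecture along the filter `l` of values of `T` -/
def Montgomery (l : Filter ℝ) : Prop := ∀ α β : ℝ, α < β →
  Asymptotics.IsEquivalent l (fun T => (N T α β : ℝ)) (fun T => P α β * X T)

/-- Montgomery's form factor `F(α, T)` -/
noncomputable def F (T α : ℝ) : ℂ :=
  (X T : ℂ)⁻¹ * ∑ᶠ s ∈ zeros T, ∑ᶠ s' ∈ zeros T, (mult s : ℂ) * (mult s' : ℂ) *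
    ((T : ℂ) ^ (I * α * (s.im - s'.im)) * (4 / (4 + (s.im - s'.im) ^ 2)))

/-- the upper bound for the means of the form factor in `(0, R]` -/
def MeanUpper (l : Filter ℝ) (R : ℝ) : Prop := ∀ a b : ℝ, 0 < a → a < b → b ≤ R →
  ∀ ε : ℝ, 0 < ε → ∀ᶠ T in l, ∫ α in a..b, (F T α).re ≤ (∫ α in a..b, min α 1) + ε

/-- **Upper bounds for the means of the form factor decide Montgomery's conjecture.** -/
theorem result (hRH : RiemannHypothesis) (l : Filter ℝ) (hl : l ≤ atTop) :
    (Montgomery l ↔ ∀ R : ℝ, MeanUpper l R) ∧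
    (∀ R : ℝ, 1 ≤ R → MeanUpper l R → ∀ a b : ℝ, 0 < a → a < b → b < R → ∀ ε : ℝ, 0 < ε →
      ∀ᶠ T in l, (∫ α in a..b, min α 1) - 1 / (6 * (R - b)) - ε ≤ ∫ α in a..b, (F T α).re) :=
  Pool.Agent.Y749.Rig.P.main hRH l hl

end Pool.Agent.Results.MP_103a5c_nt.UpperMeansDecide
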